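import Mathlib
import Pool.Agent.X238.DW.Stm

/-! Part KER of project DW (MP_8bcfe8_an): existence of the kernels. -/

namespace Pool.Agent.X153.DW

open Pool.Agent.X238.DW

theorem exists_hk (D : ℝ) : ∃ h k : ℝ → ℝ, (∀ s, HasDerivAt h (k s) s) ∧
    (∀ s, HasDerivAt k (D * h s) s) ∧ h 0 = 0 ∧ k 0 = 1 := by
  rcases lt_trichotomy D 0 with hD | hD | hD
  · obtain ⟨z, hz, hz2⟩ : ∃ z : ℝ, 0 < z ∧ z * z = -D :=
      ⟨Real.sqrt (-D), Real.sqrt_pos.2 (by linarith), Real.mul_self_sqrt (by linarith)⟩
    refine ⟨fun s => Real.sin (z * s) / z, fun s => Real.cos (z * s), ?_, ?_, by simp, by simp⟩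
    · intro s
      have h1 : HasDerivAt (fun s : ℝ => z * s) z s := by
        simpa using (hasDerivAt_id s).const_mul z
      have h2 := (h1.sin).div_const z
      refine h2.congr_deriv ?_
      field_simp
    · intro s
      have h1 : HasDerivAt (fun s : ℝ => z * s) z s := by
        simpa using (hasDerivAt_id s).const_mul z
      refine h1.cos.congr_deriv ?_
      have hD' : D = -(z * z) := by linarith
      rw [hD']
      field_simp
  · subst hD
    refine ⟨fun s => s, fun _ => 1, fun s => hasDerivAt_id s, ?_, rfl, rfl⟩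
    intro s
    simpa using hasDerivAt_const s (1 : ℝ)
  · obtain ⟨z, hz, hz2⟩ : ∃ z : ℝ, 0 < z ∧ z * z = D :=
      ⟨Real.sqrt D, Real.sqrt_pos.2 hD, Real.mul_self_sqrt hD.le⟩
    refine ⟨fun s => Real.sinh (z * s) / z, fun s => Real.cosh (z * s), ?_, ?_, by simp, by simp⟩
    · intro s
      have h1 : HasDerivAt (fun s : ℝ => z * s) z s := by
        simpa using (hasDerivAt_id s).const_mul z
      have h2 := (h1.sinh).div_const z
      refine h2.congr_deriv ?_
      field_simp
    · intro s
      have h1 : HasDerivAt (fun s : ℝ => z * s) z s := by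
        simpa using (hasDerivAt_id s).const_mul z
      refine h1.cosh.congr_deriv ?_
      rw [← hz2]
      field_simp

theorem t_KER : S_KER := by
  intro c l
  obtain ⟨h, k, hh, hk, h0, k0⟩ := exists_hk (c ^ 2 / 4 - l)
  have he : ∀ s : ℝ, HasDerivAt (fun s : ℝ => Real.exp (-(c * s / 2)))
      (Real.exp (-(c * s / 2)) * (-(c / 2))) s := by
    intro s
    have h1 : HasDerivAt (fun s : ℝ => -(c * s / 2)) (-(c / 2)) s := by
      have h2 : HasDerivAt (fun s : ℝ => c * s / 2) (c / 2) s := by
        simpa using ((hasDerivAt_id s).const_mul c).div_const 2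
      exact h2.neg
    exact h1.exp
  refine ⟨fun s => Real.exp (-(c * s / 2)) * h s,
    fun s => Real.exp (-(c * s / 2)) * (k s - c / 2 * h s), ?_, ?_, ?_, ?_⟩
  · intro s
    refine ((he s).mul (hh s)).congr_deriv ?_
    ring
  · intro s
    have h3 : HasDerivAt (fun s : ℝ => k s - c / 2 * h s)
        ((c ^ 2 / 4 - l) * h s - c / 2 * k s) s := (hk s).sub ((hh s).const_mul (c / 2))
    refine ((he s).mul h3).congr_deriv ?_
    ring
  · simp [h0]
  · simp [h0, k0]

end Pool.Agent.X153.DW
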